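import Pool.Agent.Helper49_Pauli.Interface2

/-!
ZSCALE: the approximate zero modes at scale `R`.
-/

open MeasureTheory Complex

namespace Pool.Agent.Helper49_Pauli

namespace ZScaleAux

/-- scaling of a spinor field -/
noncomputable def scl (R : ℝ) (b : ℂ) (f : X3 → S2) (x : X3) : S2 := b • f (R⁻¹ • x)

theorem cov_scl (R : ℝ) (b : ℂ) (f : X3 → S2) (j : Fin 3) :
    cov (trapR R) j (scl R b f) = scl R (b * (R : ℂ)⁻¹) (cov trapA j f) := by
  funext x s
  simp only [cov, scl, trapR, Pi.smul_apply, smul_eq_mul]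
  have h1 : fderiv ℝ (fun y : X3 => b * f (R⁻¹ • y) s) x =
      b • (R⁻¹ • fderiv ℝ (fun y => f y s) (R⁻¹ • x)) := by
    rw [← fderiv_comp_smul (𝕜 := ℝ) (f := fun y : X3 => f y s) (x := x) R⁻¹]
    have := congrFun (fderiv_const_smul_field (𝕜 := ℝ) (f := fun y : X3 => f (R⁻¹ • y) s) b) x
    exact this
  rw [h1]
  simp only [FunLike.coe_smul, Pi.smul_apply, smul_eq_mul, Complex.real_smul]
  push_cast
  ring

theorem nsq_smul (b : ℂ) (u : S2) : nsq (b • u) = ‖b‖ ^ 2 * nsq u := by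
  simp only [nsq, Pi.smul_apply, smul_eq_mul, norm_mul, mul_pow, Finset.mul_sum]

theorem nsq_scl (R : ℝ) (b : ℂ) (f : X3 → S2) (x : X3) :
    nsq (scl R b f x) = ‖b‖ ^ 2 * nsq (f (R⁻¹ • x)) := nsq_smul _ _

theorem sq_smul' (r : ℝ) (x : X3) : Pool.Agent.Helper49_Pauli.sq (r • x) = r ^ 2 * Pool.Agent.Helper49_Pauli.sq x := by
  simp only [Pool.Agent.Helper49_Pauli.sq, Pi.smul_apply, smul_eq_mul, mul_pow, Finset.mul_sum]

/-- change of variables -/
theorem int_scale (R : ℝ) (hR : 0 < R) (G : X3 → ℝ) :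
    ∫ x : X3, G (R⁻¹ • x) = R ^ 3 * ∫ x : X3, G x := by
  rw [Measure.integral_comp_inv_smul_of_nonneg volume G hR.le]
  simp

/-- the general scaling identity -/
theorem int_scale' (R : ℝ) (hR : 0 < R) (b : ℝ) (m : ℕ) (G : X3 → ℝ) :
    ∫ x : X3, (1 + Pool.Agent.Helper49_Pauli.sq x / R ^ 2) ^ m * (b * G (R⁻¹ • x)) =
      b * R ^ 3 * ∫ x : X3, (1 + Pool.Agent.Helper49_Pauli.sq x) ^ m * G x := by
  have h : ∀ x : X3, (1 + Pool.Agent.Helper49_Pauli.sq x / R ^ 2) ^ m * (b * G (R⁻¹ • x)) =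
      b * ((fun y : X3 => (1 + Pool.Agent.Helper49_Pauli.sq y) ^ m * G y) (R⁻¹ • x)) := by
    intro x
    simp only
    rw [sq_smul']
    have : Pool.Agent.Helper49_Pauli.sq x / R ^ 2 = R⁻¹ ^ 2 * Pool.Agent.Helper49_Pauli.sq x := by
      field_simp
    rw [this]
    ring
  simp_rw [h]
  rw [integral_const_mul, int_scale R hR (fun y : X3 => (1 + Pool.Agent.Helper49_Pauli.sq y) ^ m * G y)]
  ring

theorem contDiff_sq : ContDiff ℝ (⊤ : ℕ∞) (Pool.Agent.Helper49_Pauli.sq) := by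
  unfold Pool.Agent.Helper49_Pauli.sq
  exact ContDiff.sum fun j _ => (contDiff_apply ℝ ℝ j).pow 2

theorem sq_nonneg'' (x : X3) : 0 ≤ Pool.Agent.Helper49_Pauli.sq x :=
  Finset.sum_nonneg fun _ _ => by positivity

theorem contDiff_trapA (j : Fin 3) : ContDiff ℝ (⊤ : ℕ∞) fun x => trapA x j := by
  have h0 : ∀ i : Fin 3, ContDiff ℝ (⊤ : ℕ∞) fun x : X3 => x i := fun i => contDiff_apply ℝ ℝ i
  have hs := contDiff_sq
  have h1 : ContDiff ℝ (⊤ : ℕ∞) fun x : X3 => (1 + Pool.Agent.Helper49_Pauli.sq x)⁻¹ :=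
    (contDiff_const.add hs).inv fun x => by have := sq_nonneg'' x; positivity
  have h2 : ContDiff ℝ (⊤ : ℕ∞) fun x : X3 => (![-x 1, x 0, 0] : X3) j := by
    fin_cases j
    · exact (h0 1).neg
    · exact h0 0
    · exact contDiff_const
  unfold trapA
  exact (((contDiff_const.mul (h1.pow 2))).mul ((((contDiff_const.sub hs).mul contDiff_const).add
    ((contDiff_const.mul (h0 2)).mul (h0 j))).add (contDiff_const.mul h2)))

theorem contDiff_cov {f : X3 → S2} (hf : ∀ s, ContDiff ℝ (⊤ : ℕ∞) fun x => f x s) (j : Fin 3) (s : Fin 2) :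
    ContDiff ℝ (⊤ : ℕ∞) fun x => cov trapA j f x s := by
  unfold cov
  have h1 : ContDiff ℝ (⊤ : ℕ∞) fun x => fderiv ℝ (fun y => f y s) x (Pi.single j 1 : X3) :=
    ((hf s).fderiv_right (m := (⊤ : ℕ∞)) (by norm_cast)).clm_apply contDiff_const
  have h2 : ContDiff ℝ (⊤ : ℕ∞) fun x => (trapA x j : ℂ) :=
    Complex.ofRealCLM.contDiff.comp (contDiff_trapA j)
  exact (contDiff_const.mul h1).add (h2.mul (hf s))

theorem cov_zero_of {f : X3 → S2} {U : Set X3} (hU : IsOpen U) (h : ∀ x ∈ U, f x = 0) (j : Fin 3) :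
    ∀ x ∈ U, cov trapA j f x = 0 := by
  intro x hx
  funext s
  have h1 : (fun y => f y s) =ᶠ[nhds x] fun _ => 0 := by
    filter_upwards [hU.mem_nhds hx] with y hy
    rw [h y hy]; rfl
  simp only [cov]
  rw [h1.fderiv_eq, h x hx]
  simp

end ZScaleAux

open ZScaleAux

/-- ZSCALE from TRAPZERO. -/
theorem zScale (hT : TrapZeroStatement) : ZScaleStatement := by
  obtain ⟨C, hC, hT⟩ := hT
  refine ⟨C, hC, ?_⟩
  intro R e hR he
  obtain ⟨f, hf1, hf2, hf3, hf4, hf5⟩ := hT (e * R ^ 2) (by positivity)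
  set b : ℂ := (((Real.sqrt (R ^ 3))⁻¹ : ℝ) : ℂ) with hb
  have hbn : ‖b‖ ^ 2 = (R ^ 3)⁻¹ := by
    rw [hb, Complex.norm_real, Real.norm_eq_abs, sq_abs, inv_pow, Real.sq_sqrt (by positivity)]
  have hRc : ‖((R : ℂ))⁻¹‖ = R⁻¹ := by
    rw [norm_inv, Complex.norm_real, Real.norm_eq_abs, abs_of_pos hR]
  have hR3 : (R ^ 3)⁻¹ * R ^ 3 = 1 := by field_simp
  -- smoothness
  have hK : ∃ K : Set X3, IsCompact K ∧ ∀ x ∉ K, f x = 0 := by
    refine ⟨⋃ s, tsupport (fun x => f x s), isCompact_iUnion fun s => hf2 s, ?_⟩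
    intro x hx
    funext s
    rw [Set.mem_iUnion, not_exists] at hx
    exact image_eq_zero_of_notMem_tsupport (f := fun x => f x s) (hx s)
  obtain ⟨K, hK, hK0⟩ := hK
  have hKU : IsOpen Kᶜ := hK.isClosed.isOpen_compl
  set G0 : X3 → ℝ := fun x => nsq (f x) with hG0
  set G1 : X3 → ℝ := fun x => ∑ j, nsq (cov trapA j f x) with hG1
  set G2 : X3 → ℝ := fun x => ∑ l, ∑ j, nsq (cov trapA l (cov trapA j f) x) with hG2
  have hG0' : ∀ x, 0 ≤ G0 x := fun x => nsq_nonneg _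
  have hG1' : ∀ x, 0 ≤ G1 x := fun x => Finset.sum_nonneg fun _ _ => nsq_nonneg _
  have hG2' : ∀ x, 0 ≤ G2 x := fun x => Finset.sum_nonneg fun _ _ =>
    Finset.sum_nonneg fun _ _ => nsq_nonneg _
  have hc0 : Continuous G0 := continuous_finsetSum _ fun s _ => ((hf1 s).continuous.norm.pow 2)
  have hc1 : Continuous G1 := continuous_finsetSum _ fun j _ => continuous_finsetSum _ fun s _ =>
    ((contDiff_cov hf1 j s).continuous.norm.pow 2)
  have hc2 : Continuous G2 := continuous_finsetSum _ fun l _ => continuous_finsetSum _ fun j _ =>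
    continuous_finsetSum _ fun s _ =>
      ((contDiff_cov (contDiff_cov hf1 j) l s).continuous.norm.pow 2)
  have hcs : Continuous (Pool.Agent.Helper49_Pauli.sq) := contDiff_sq.continuous
  have hint : Integrable fun x => (1 + Pool.Agent.Helper49_Pauli.sq x) ^ 4 * (G0 x + G1 x + G2 x) := by
    apply Continuous.integrable_of_hasCompactSupport
    · exact ((continuous_const.add hcs).pow 4).mul ((hc0.add hc1).add hc2)
    · refine HasCompactSupport.intro hK fun x hx => ?_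
      have h0 : f x = 0 := hK0 x hx
      have h1 : ∀ j, cov trapA j f x = 0 := fun j => cov_zero_of hKU (fun y hy => hK0 y hy) j x hx
      have h2 : ∀ l j, cov trapA l (cov trapA j f) x = 0 := fun l j =>
        cov_zero_of hKU (cov_zero_of hKU (fun y hy => hK0 y hy) j) l x hx
      simp [hG0, hG1, hG2, h0, h1, h2, nsq]
  have hle : ∫ x, (1 + Pool.Agent.Helper49_Pauli.sq x) ^ 4 * (G0 x + G1 x + G2 x) ≤ C := hf4
  have hpart : ∀ G : X3 → ℝ, (∀ x, 0 ≤ G x) → (∀ x, G x ≤ G0 x + G1 x + G2 x) →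
      ∫ x, (1 + Pool.Agent.Helper49_Pauli.sq x) ^ 4 * G x ≤ C := by
    intro G hG hG'
    refine le_trans (integral_mono_of_nonneg ?_ hint ?_) hle
    · exact Filter.Eventually.of_forall fun x => mul_nonneg
        (pow_nonneg (by have := sq_nonneg'' x; linarith) _) (hG x)
    · exact Filter.Eventually.of_forall fun x => mul_le_mul_of_nonneg_left (hG' x)
        (pow_nonneg (by have := sq_nonneg'' x; linarith) _)
  refine ⟨scl R b f, ?_, ?_, ?_, ?_, ?_, ?_, ?_⟩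
  · have hff : ContDiff ℝ (⊤ : ℕ∞) f := contDiff_pi.mpr hf1
    exact (hff.comp (contDiff_const_smul R⁻¹)).const_smul b
  · have hR0 : R ≠ 0 := hR.ne'
    refine HasCompactSupport.intro (hK.smul R) fun x hx => ?_
    have : R⁻¹ • x ∉ K := by
      intro h
      exact hx ⟨R⁻¹ • x, h, by simp [smul_smul, hR0]⟩
    simp [scl, hK0 _ this]
  · simp_rw [nsq_scl, hbn]
    rw [integral_const_mul, int_scale R hR (fun x => nsq (f x)), ← mul_assoc, hR3, one_mul]
    exact hf3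
  · simp_rw [nsq_scl, hbn]
    rw [int_scale' R hR _ 4 G0, hR3, one_mul]
    exact hpart G0 hG0' fun x => by linarith [hG1' x, hG2' x]
  · simp_rw [cov_scl, nsq_scl, ← Finset.mul_sum]
    rw [int_scale' R hR _ 4 G1, norm_mul, mul_pow, hbn, hRc]
    have : (R ^ 3)⁻¹ * R⁻¹ ^ 2 * R ^ 3 = R ^ (-2 : ℤ) := by
      rw [mul_right_comm, hR3, one_mul, inv_pow]
      rw [zpow_neg]; norm_cast
    rw [this, mul_comm]
    exact mul_le_mul_of_nonneg_right (hpart G1 hG1' fun x => by linarith [hG0' x, hG2' x])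
      (by positivity)
  · simp_rw [cov_scl, nsq_scl, ← Finset.mul_sum]
    rw [int_scale' R hR _ 4 G2, norm_mul, norm_mul, mul_pow, mul_pow, hbn, hRc]
    have : (R ^ 3)⁻¹ * R⁻¹ ^ 2 * R⁻¹ ^ 2 * R ^ 3 = R ^ (-4 : ℤ) := by
      have : (R ^ 3)⁻¹ * R⁻¹ ^ 2 * R⁻¹ ^ 2 * R ^ 3 = ((R ^ 3)⁻¹ * R ^ 3) * R⁻¹ ^ 4 := by ring
      rw [this, hR3, one_mul, inv_pow]
      rw [zpow_neg]; norm_cast
    rw [this, mul_comm]
    exact mul_le_mul_of_nonneg_right (hpart G2 hG2' fun x => by linarith [hG0' x, hG1' x])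
      (by positivity)
  · have h1 : ∀ x, (∑ j, sg j (cov (trapR R) j (scl R b f) x)) =
        (b * (R : ℂ)⁻¹) • (∑ j, sg j (cov trapA j f (R⁻¹ • x))) := by
      intro x
      rw [Finset.smul_sum]
      refine Finset.sum_congr rfl fun j _ => ?_
      rw [cov_scl]
      simp only [scl, map_smul]
    simp_rw [h1, nsq_smul]
    rw [int_scale' R hR _ 2 (fun x => nsq (∑ j, sg j (cov trapA j f x))), norm_mul, mul_pow, hbn, hRc]
    have h2 : ∀ x, nsq (∑ j, sg j (cov trapA j f x)) =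
        ∑ s, ‖pauliDot (fun j => cov trapA j f x) s‖ ^ 2 := by
      intro x
      rw [pauliDot_eq]; rfl
    simp_rw [h2]
    have h3 : (R ^ 3)⁻¹ * R⁻¹ ^ 2 * R ^ 3 = (R ^ 2)⁻¹ := by
      rw [mul_right_comm, hR3, one_mul, inv_pow]
    rw [h3]
    calc _ ≤ (R ^ 2)⁻¹ * (e * R ^ 2) := mul_le_mul_of_nonneg_left hf5 (by positivity)
      _ = e := by field_simp

end Pool.Agent.Helper49_Pauli
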